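import Mathlib

/-!
# Chains of cliques

A large family `H` of states (`m` slots, each filled with an element of `Fin M`) contains, for
every prescribed sequence of slots, a long chain of states in which the prescribed slots are
increased one after the other.
-/

set_option autoImplicit false

namespace Pool.Agent.OrdPathwidth

open Finset

/-- the states of `K` whose slot `a` cannot be increased inside `K` are few -/
theorem stuck_card {m M : ℕ} (K : Finset (Fin m → Fin M)) (a : Fin m)
    (B : Finset (Fin m → Fin M)) (hB : B ⊆ K)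
    (hstuck : ∀ e ∈ B, ∀ y : Fin M, e a < y → Function.update e a y ∉ K) :
    B.card ≤ M ^ (m - 1) := by
  classical
  have hinj : Set.InjOn (fun (e : Fin m → Fin M) (i : {i : Fin m // i ≠ a}) => e i.1)
      (B : Set (Fin m → Fin M)) := by
    intro e he e' he' hee
    have hoff : ∀ i, i ≠ a → e i = e' i := fun i hi => congrFun hee ⟨i, hi⟩
    have key : ∀ f f' : Fin m → Fin M, f ∈ B → f' ∈ B → (∀ i, i ≠ a → f i = f' i) →
        ¬ f a < f' a := by
      intro f f' hf hf' hoff hlt
      have : Function.update f a (f' a) = f' := by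
        funext i
        by_cases hi : i = a
        · subst hi
          simp
        · rw [Function.update_of_ne hi, hoff i hi]
      exact hstuck f hf (f' a) hlt (by rw [this]; exact hB hf')
    funext i
    by_cases hi : i = a
    · subst hi
      exact le_antisymm (not_lt.1 (key e' e he' he (fun j hj => (hoff j hj).symm)))
        (not_lt.1 (key e e' he he' hoff))
    · exact hoff i hi
  have h1 := Finset.card_le_card_of_injOn
    (s := B) (t := (Finset.univ : Finset ({i : Fin m // i ≠ a} → Fin M))) _
    (fun _ _ => Finset.mem_coe.2 (Finset.mem_univ _)) hinj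
  have h2 : Fintype.card {i : Fin m // i ≠ a} = m - 1 := by
    rw [Fintype.card_subtype_compl, Fintype.card_fin]
    simp
  rwa [Finset.card_univ, Fintype.card_fun, Fintype.card_fin, h2] at h1

theorem chain {m M : ℕ} (H : Finset (Fin m → Fin M)) (L : ℕ) : ∀ a : ℕ → Fin m,
    ∃ B ⊆ H, B.card ≤ L * M ^ (m - 1) ∧ ∀ e₀ ∈ H, e₀ ∉ B →
      ∃ e : ℕ → Fin m → Fin M, e 0 = e₀ ∧ (∀ t ≤ L, e t ∈ H) ∧
        ∀ t < L, e t (a t) < e (t + 1) (a t) ∧ ∀ i, i ≠ a t → e (t + 1) i = e t i := by
  classical
  induction L with
  | zero =>
    intro a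
    refine ⟨∅, Finset.empty_subset _, by simp, fun e₀ he₀ _ => ⟨fun _ => e₀, rfl, ?_, ?_⟩⟩
    · intro t _
      exact he₀
    · intro t ht
      omega
  | succ L ih =>
    intro a
    obtain ⟨B', hB'H, hB'c, hB'⟩ := ih (fun t => a (t + 1))
    set K : Finset (Fin m → Fin M) := H \ B' with hK
    set B'' : Finset (Fin m → Fin M) :=
      K.filter (fun e => ∀ y : Fin M, e (a 0) < y → Function.update e (a 0) y ∉ K) with hB''
    have hB''c : B''.card ≤ M ^ (m - 1) :=
      stuck_card K (a 0) B'' (Finset.filter_subset _ _)
        (fun e he => (Finset.mem_filter.1 he).2)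
    refine ⟨B' ∪ B'', ?_, ?_, ?_⟩
    · intro e he
      rcases Finset.mem_union.1 he with h | h
      · exact hB'H h
      · exact (Finset.mem_sdiff.1 (Finset.mem_filter.1 h).1).1
    · calc (B' ∪ B'').card ≤ B'.card + B''.card := Finset.card_union_le _ _
        _ ≤ L * M ^ (m - 1) + M ^ (m - 1) := Nat.add_le_add hB'c hB''c
        _ = (L + 1) * M ^ (m - 1) := by ring
    · intro e₀ he₀ hne
      have hne' : e₀ ∉ B' := fun h => hne (Finset.mem_union_left _ h)
      have hne'' : e₀ ∉ B'' := fun h => hne (Finset.mem_union_right _ h)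
      have heK : e₀ ∈ K := Finset.mem_sdiff.2 ⟨he₀, hne'⟩
      have : ∃ y : Fin M, e₀ (a 0) < y ∧ Function.update e₀ (a 0) y ∈ K := by
        by_contra hcon
        push Not at hcon
        exact hne'' (Finset.mem_filter.2 ⟨heK, hcon⟩)
      obtain ⟨y, hy, hyK⟩ := this
      obtain ⟨e, he0, heH, hstep⟩ := hB' _ (Finset.mem_sdiff.1 hyK).1 (Finset.mem_sdiff.1 hyK).2
      refine ⟨fun t => Nat.casesOn t e₀ (fun t => e t), rfl, ?_, ?_⟩
      · intro t ht
        cases t with
        | zero => exact he₀
        | succ t => exact heH t (by omega)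
      · intro t ht
        cases t with
        | zero =>
          refine ⟨?_, ?_⟩
          · show e₀ (a 0) < e 0 (a 0)
            rw [he0]
            simpa using hy
          · intro i hi
            show e 0 i = e₀ i
            rw [he0, Function.update_of_ne hi]
        | succ t => exact hstep t (by omega)

/-- in a chain the slots which are not used keep their contents -/
theorem chain_const {m M L : ℕ} {a : ℕ → Fin m} {e : ℕ → Fin m → Fin M}
    (hstep : ∀ t < L, e t (a t) < e (t + 1) (a t) ∧ ∀ i, i ≠ a t → e (t + 1) i = e t i)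
    (i : Fin m) (s t : ℕ) (hst : s ≤ t) (htL : t ≤ L) (hne : ∀ u, s ≤ u → u < t → a u ≠ i) :
    e t i = e s i := by
  induction t with
  | zero =>
    obtain rfl : s = 0 := by omega
    rfl
  | succ t ih =>
    rcases Nat.lt_or_ge t s with h | h
    · obtain rfl : s = t + 1 := by omega
      rfl
    · rw [(hstep t (by omega)).2 i (fun hc => hne t h (by omega) hc.symm)]
      exact ih h (by omega) (fun u hu hut => hne u hu (by omega))

/-- in a chain the contents of every slot are nondecreasing -/
theorem chain_mono {m M L : ℕ} {a : ℕ → Fin m} {e : ℕ → Fin m → Fin M}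
    (hstep : ∀ t < L, e t (a t) < e (t + 1) (a t) ∧ ∀ i, i ≠ a t → e (t + 1) i = e t i)
    (i : Fin m) (s t : ℕ) (hst : s ≤ t) (htL : t ≤ L) : e s i ≤ e t i := by
  induction t with
  | zero =>
    obtain rfl : s = 0 := by omega
    exact le_refl _
  | succ t ih =>
    rcases Nat.lt_or_ge t s with h | h
    · obtain rfl : s = t + 1 := by omega
      exact le_refl _
    · refine (ih h (by omega)).trans ?_
      by_cases hi : i = a t
      · subst hi
        exact (hstep t (by omega)).1.le
      · rw [(hstep t (by omega)).2 i hi]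

end Pool.Agent.OrdPathwidth
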