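import Mathlib
import Pool.Agent.Lib.MP_5a1161_co_h27.Ramsey

/-!
# Many monochromatic transversal cliques
-/

set_option autoImplicit false

namespace Pool.Agent.OrdPathwidth

open Finset

/-- Ramsey's theorem for pairs, as an order embedding -/
theorem ramsey_pairs (m r : ℕ) (hr : 0 < r) : ∃ R : ℕ, ∀ col : Fin R → Fin R → Fin r,
    ∃ (S : Fin m ↪o Fin R) (b : Fin r), ∀ i j, i < j → col (S i) (S j) = b := by
  classical
  obtain ⟨R, hR⟩ := Pool.Agent.MP_5a1161_co.ramsey 2 (Fin r) m
  refine ⟨R, fun col => ?_⟩
  let col' : Finset (Fin R) → Fin r := fun T =>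
    if h : T.Nonempty then col (T.min' h) (T.max' h) else ⟨0, hr⟩
  obtain ⟨S', -, hcard, b, hb⟩ := hR (Fin R) col' Finset.univ
    (by rw [Finset.card_univ, Fintype.card_fin])
  refine ⟨S'.orderEmbOfFin hcard, b, fun i j hij => ?_⟩
  set x := S'.orderEmbOfFin hcard i with hx
  set y := S'.orderEmbOfFin hcard j with hy
  have hxy : x < y := (S'.orderEmbOfFin hcard).strictMono hij
  have hxS : x ∈ S' := S'.orderEmbOfFin_mem hcard i
  have hyS : y ∈ S' := S'.orderEmbOfFin_mem hcard j
  have h1 := hb {x, y} (by
    intro z hz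
    rcases Finset.mem_insert.1 hz with rfl | hz
    · exact hxS
    · rw [Finset.mem_singleton.1 hz]; exact hyS) (Finset.card_pair hxy.ne)
  have hne : ({x, y} : Finset (Fin R)).Nonempty := ⟨x, by simp⟩
  have hmin : ({x, y} : Finset (Fin R)).min' hne = x := by
    apply le_antisymm
    · exact Finset.min'_le _ _ (by simp)
    · apply Finset.le_min'
      intro z hz
      rcases Finset.mem_insert.1 hz with rfl | hz
      · exact le_refl _
      · rw [Finset.mem_singleton.1 hz]; exact hxy.le
  have hmax : ({x, y} : Finset (Fin R)).max' hne = y := by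
    apply le_antisymm
    · apply Finset.max'_le
      intro z hz
      rcases Finset.mem_insert.1 hz with rfl | hz
      · exact hxy.le
      · rw [Finset.mem_singleton.1 hz]
    · exact Finset.le_max' _ _ (by simp)
  have h2 : col' {x, y} = col x y := by
    show (if h : ({x, y} : Finset (Fin R)).Nonempty then _ else _) = _
    rw [dif_pos hne, hmin, hmax]
  rw [← h2, h1]

/-- the number of functions on `Fin R` with prescribed restrictions to the range of `S` -/
theorem card_restrict_le {m R M : ℕ} (S : Fin m ↪ Fin R) (H : Finset (Fin m → Fin M)) :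
    (Finset.univ.filter (fun f : Fin R → Fin M => (fun i => f (S i)) ∈ H)).card ≤
      H.card * M ^ (R - m) := by
  classical
  set W : Finset (Fin R → Fin M) :=
    Finset.univ.filter (fun f : Fin R → Fin M => (fun i => f (S i)) ∈ H) with hW
  let X : Type := {j : Fin R // j ∉ Set.range S}
  have hinj : Set.InjOn (fun f : Fin R → Fin M => ((fun i => f (S i)), fun j : X => f j.1))
      (W : Set (Fin R → Fin M)) := by
    intro f _ f' _ hff
    funext j
    by_cases hj : j ∈ Set.range S
    · obtain ⟨i, rfl⟩ := hj
      exact congrFun (congrArg Prod.fst hff) i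
    · exact congrFun (congrArg Prod.snd hff) ⟨j, hj⟩
  have h1 := Finset.card_le_card_of_injOn
    (s := W) (t := H ×ˢ (Finset.univ : Finset (X → Fin M))) _
    (fun f hf => by
      rw [Finset.mem_coe, Finset.mem_product]
      rw [Finset.mem_coe, hW, Finset.mem_filter] at hf
      exact ⟨hf.2, Finset.mem_univ _⟩) hinj
  have h2 : Fintype.card X = R - m := by
    have h3 : Fintype.card {j : Fin R // j ∈ Set.range S} = m := by
      have h6 := Fintype.card_congr (Equiv.ofInjective S S.injective)
      rw [Fintype.card_fin] at h6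
      exact (Fintype.card_congr (Equiv.refl _)).trans h6.symm
    have h4 := Fintype.card_subtype_compl (fun j : Fin R => j ∈ Set.range S)
    rw [Fintype.card_fin, h3] at h4
    exact h4
  rw [Finset.card_product, Finset.card_univ, Fintype.card_fun, Fintype.card_fin, h2] at h1
  exact h1

/-- Among the colourings of the `R`-partite graph with parts `Fin M` some choice of `m` parts and
of a colour has many monochromatic transversal cliques. -/
theorem many_cliques {m R M r : ℕ}
    (hR : ∀ col : Fin R → Fin R → Fin r,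
      ∃ (S : Fin m ↪o Fin R) (b : Fin r), ∀ i j, i < j → col (S i) (S j) = b)
    (n : ℕ) (hm : 0 < m) (hM : n * (R ^ m * r) < M)
    (c : Fin R → Fin M → Fin R → Fin M → Fin r) :
    ∃ (S : Fin m ↪o Fin R) (b : Fin r) (H : Finset (Fin m → Fin M)),
      n * M ^ (m - 1) < H.card ∧
      ∀ e ∈ H, ∀ i j, i < j → c (S i) (e i) (S j) (e j) = b := by
  classical
  have hM0 : 0 < M := by omega
  let Hs : (Fin m ↪o Fin R) × Fin r → Finset (Fin m → Fin M) := fun p =>
    Finset.univ.filter (fun e => ∀ i j, i < j → c (p.1 i) (e i) (p.1 j) (e j) = p.2)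
  by_contra hcon
  push Not at hcon
  have hsmall : ∀ p, (Hs p).card ≤ n * M ^ (m - 1) := by
    intro p
    by_contra h
    push Not at h
    obtain ⟨e, he, i, j, hij, hne⟩ := hcon p.1 p.2 (Hs p) h
    exact hne ((Finset.mem_filter.1 he).2 i j hij)
  -- every transversal contains a monochromatic clique
  have hcover : (Finset.univ : Finset (Fin R → Fin M)) ⊆
      (Finset.univ : Finset ((Fin m ↪o Fin R) × Fin r)).biUnion (fun p =>
        Finset.univ.filter (fun f : Fin R → Fin M => (fun i => f (p.1 i)) ∈ Hs p)) := by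
    intro f _
    obtain ⟨S, b, hSb⟩ := hR (fun i j => c i (f i) j (f j))
    rw [Finset.mem_biUnion]
    exact ⟨(S, b), Finset.mem_univ _, Finset.mem_filter.2 ⟨Finset.mem_univ _,
      Finset.mem_filter.2 ⟨Finset.mem_univ _, hSb⟩⟩⟩
  have hmR : m ≤ R := by
    obtain ⟨S, -, -⟩ := hR (fun i j => c i ⟨0, hM0⟩ j ⟨0, hM0⟩)
    have := Fintype.card_le_of_injective S S.injective
    simpa using this
  have h1 : M ^ R ≤ (R ^ m * r) * (n * M ^ (m - 1) * M ^ (R - m)) := by
    calc M ^ R = (Finset.univ : Finset (Fin R → Fin M)).card := by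
          rw [Finset.card_univ, Fintype.card_fun, Fintype.card_fin, Fintype.card_fin]
      _ ≤ _ := Finset.card_le_card hcover
      _ ≤ ∑ p : (Fin m ↪o Fin R) × Fin r, (Finset.univ.filter
            (fun f : Fin R → Fin M => (fun i => f (p.1 i)) ∈ Hs p)).card :=
          Finset.card_biUnion_le
      _ ≤ ∑ p : (Fin m ↪o Fin R) × Fin r, n * M ^ (m - 1) * M ^ (R - m) := by
          apply Finset.sum_le_sum
          intro p _
          exact (card_restrict_le p.1.toEmbedding (Hs p)).trans
            (Nat.mul_le_mul_right _ (hsmall p))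
      _ = Fintype.card ((Fin m ↪o Fin R) × Fin r) * (n * M ^ (m - 1) * M ^ (R - m)) := by
          rw [Finset.sum_const, Finset.card_univ, smul_eq_mul]
      _ ≤ (R ^ m * r) * (n * M ^ (m - 1) * M ^ (R - m)) := by
          apply Nat.mul_le_mul_right
          rw [Fintype.card_prod, Fintype.card_fin]
          apply Nat.mul_le_mul_right
          have h2 := Fintype.card_le_of_injective
            (fun (S : Fin m ↪o Fin R) => (S : Fin m → Fin R)) DFunLike.coe_injective
          rwa [Fintype.card_fun, Fintype.card_fin, Fintype.card_fin] at h2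
  have h2 : M ^ R = M * (M ^ (m - 1) * M ^ (R - m)) := by
    rw [← pow_add, ← pow_succ']
    congr 1
    omega
  have h3 : 0 < M ^ (m - 1) * M ^ (R - m) := by positivity
  have h4 : M * (M ^ (m - 1) * M ^ (R - m)) ≤
      (n * (R ^ m * r)) * (M ^ (m - 1) * M ^ (R - m)) := by
    rw [← h2]
    refine h1.trans (le_of_eq ?_)
    ring
  have h5 := Nat.le_of_mul_le_mul_right h4 h3
  omega

end Pool.Agent.OrdPathwidth
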