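import Mathlib

/-!
# Slots for graphs of bounded pathwidth
-/

set_option autoImplicit false

namespace Pool.Agent.OrdPathwidth

open Finset

/-- The graph `G` has a path decomposition of width at most `k`: a sequence of bags `B i` of at
most `k + 1` vertices such that every vertex lies in a bag, the two ends of every edge lie in a
common bag, and the bags which contain a given vertex are consecutive. -/
def HasPathDecomposition {V : Type} (G : SimpleGraph V) (k : ℕ) : Prop :=
  ∃ (m : ℕ) (B : Fin m → Finset V),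
    (∀ v, ∃ i, v ∈ B i) ∧ (∀ v w, G.Adj v w → ∃ i, v ∈ B i ∧ w ∈ B i) ∧
    (∀ i j l, i ≤ j → j ≤ l → ∀ v, v ∈ B i → v ∈ B l → v ∈ B j) ∧ ∀ i, (B i).card ≤ k + 1

/-- greedy colouring along the times `0, 1, ..., n - 1` -/
theorem greedy_slots (k n : ℕ) (act : ℕ → ℕ → Prop)
    (hact : ∀ t < n, ∀ S : Finset ℕ, (∀ s ∈ S, s < t ∧ act s t) → S.card ≤ k) :
    ∃ a : ℕ → Fin (k + 1), ∀ t < n, ∀ s < t, act s t → a s ≠ a t := by
  classical
  induction n with
  | zero => exact ⟨fun _ => 0, fun t ht => absurd ht (Nat.not_lt_zero t)⟩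
  | succ n ih =>
    obtain ⟨a, ha⟩ := ih (fun t ht => hact t (by omega))
    set S : Finset ℕ := (Finset.range n).filter (fun s => act s n) with hS
    have hSc : S.card ≤ k := hact n (by omega) S (fun s hs => by
      rw [hS, Finset.mem_filter, Finset.mem_range] at hs
      exact hs)
    obtain ⟨c, hc⟩ : ∃ c : Fin (k + 1), c ∉ S.image a := by
      by_contra hcon
      push Not at hcon
      have h1 : (Finset.univ : Finset (Fin (k + 1))) ⊆ S.image a := fun c _ => hcon c
      have h2 := (Finset.card_le_card h1).trans Finset.card_image_le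
      rw [Finset.card_univ, Fintype.card_fin] at h2
      omega
    refine ⟨Function.update a n c, fun t ht s hs hst => ?_⟩
    rcases Nat.lt_or_ge t n with h | h
    · rw [Function.update_of_ne (by omega), Function.update_of_ne (by omega)]
      exact ha t h s hs hst
    · obtain rfl : t = n := by omega
      rw [Function.update_self, Function.update_of_ne (by omega)]
      intro hcc
      apply hc
      rw [Finset.mem_image]
      exact ⟨s, Finset.mem_filter.2 ⟨Finset.mem_range.2 hs, hst⟩, hcc⟩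

/-- the vertices of a graph of pathwidth at most `k` can be put one after the other into `k + 1`
slots such that adjacent vertices meet -/
theorem exists_slots {n : ℕ} (G : SimpleGraph (Fin n)) (k : ℕ) (hG : HasPathDecomposition G k) :
    ∃ (π : Equiv.Perm (Fin n)) (a : ℕ → Fin (k + 1)), ∀ s t : Fin n, s < t →
      G.Adj (π s) (π t) → ∀ u : ℕ, s.1 < u → u ≤ t.1 → a u ≠ a s.1 := by
  classical
  obtain ⟨m, B, hcov, hedge, hconv, hcard⟩ := hG
  have hleft : ∀ v, ∃ i, v ∈ B i ∧ ∀ j, v ∈ B j → i ≤ j := by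
    intro v
    have hne : (Finset.univ.filter (fun i => v ∈ B i)).Nonempty := by
      obtain ⟨i, hi⟩ := hcov v
      exact ⟨i, Finset.mem_filter.2 ⟨Finset.mem_univ _, hi⟩⟩
    refine ⟨_, (Finset.mem_filter.1 (Finset.min'_mem _ hne)).2, fun j hj => ?_⟩
    exact Finset.min'_le (Finset.univ.filter (fun i => v ∈ B i)) j
      (Finset.mem_filter.2 ⟨Finset.mem_univ j, hj⟩)
  choose lf hlf hlfmin using hleft
  set π : Equiv.Perm (Fin n) := Tuple.sort lf with hπ
  have hmono : Monotone (lf ∘ π) := Tuple.monotone_sort lf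
  -- `act s t`: the vertex of time `s` lies in a bag at or after the first bag of time `t`
  let act : ℕ → ℕ → Prop := fun s t => ∃ (hs : s < n) (ht : t < n) (i : Fin m),
    lf (π ⟨t, ht⟩) ≤ i ∧ π ⟨s, hs⟩ ∈ B i
  have hact : ∀ t < n, ∀ S : Finset ℕ, (∀ s ∈ S, s < t ∧ act s t) → S.card ≤ k := by
    intro t ht S hS
    have hsub : ∀ s ∈ S, ∃ hs : s < n, π ⟨s, hs⟩ ∈ B (lf (π ⟨t, ht⟩)) ∧ s < t := by
      intro s hs
      obtain ⟨hst, hsn, _, i, hi, hmem⟩ := hS s hs
      refine ⟨hsn, ?_, hst⟩
      have h1 : lf (π ⟨s, hsn⟩) ≤ lf (π ⟨t, ht⟩) := hmono (Fin.le_def.2 hst.le)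
      exact hconv _ _ _ h1 hi _ (hlf _) hmem
    set T : Finset (Fin n) := S.attach.image (fun s => π ⟨s.1, (hsub s.1 s.2).choose⟩) with hT
    have hTc : T.card = S.card := by
      rw [hT, Finset.card_image_of_injective, Finset.card_attach]
      intro x y hxy
      have := π.injective hxy
      exact Subtype.ext (Fin.mk.inj_iff.1 this)
    have hTB : insert (π ⟨t, ht⟩) T ⊆ B (lf (π ⟨t, ht⟩)) := by
      intro v hv
      rcases Finset.mem_insert.1 hv with rfl | hv
      · exact hlf _
      · rw [hT, Finset.mem_image] at hv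
        obtain ⟨s, _, rfl⟩ := hv
        exact (hsub s.1 s.2).choose_spec.1
    have hnot : π ⟨t, ht⟩ ∉ T := by
      intro hv
      rw [hT, Finset.mem_image] at hv
      obtain ⟨s, _, hs⟩ := hv
      have h1 := Fin.mk.inj_iff.1 (π.injective hs)
      have h2 := (hsub s.1 s.2).choose_spec.2
      omega
    have h3 := Finset.card_le_card hTB
    rw [Finset.card_insert_of_notMem hnot, hTc] at h3
    have h4 := hcard (lf (π ⟨t, ht⟩))
    omega
  obtain ⟨a, ha⟩ := greedy_slots k n act hact
  refine ⟨π, a, fun s t hst hadj u hsu hut => ?_⟩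
  obtain ⟨i, hsi, hti⟩ := hedge _ _ hadj
  have hun : u < n := lt_of_le_of_lt hut t.2
  have h1 : lf (π ⟨u, hun⟩) ≤ lf (π t) := hmono (Fin.le_def.2 hut)
  have h2 : lf (π t) ≤ i := hlfmin _ _ hti
  exact fun h => ha u hun s.1 hsu ⟨s.2, hun, i, h1.trans h2, hsi⟩ h.symm

end Pool.Agent.OrdPathwidth
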