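import Mathlib
import Pool.Agent.Lib.MP_5b01b8_co_h12.Chain
import Pool.Agent.Lib.MP_5b01b8_co_h12.Slots
import Pool.Agent.Lib.MP_5b01b8_co_h12.Count

/-!
# Graphs of bounded pathwidth have an ordering with linear ordered Ramsey number
-/

set_option autoImplicit false

namespace Pool.Agent.OrdPathwidth

open Finset

/-- the vertex of `Fin N` with coordinate `x` in the `j`-th interval of length `M` -/
def place {R M N : ℕ} (h : R * M ≤ N) (j : Fin R) (x : Fin M) : Fin N :=
  ⟨j.1 * M + x.1, by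
    have h1 := j.2
    have h2 := x.2
    calc j.1 * M + x.1 < j.1 * M + M := by omega
      _ = (j.1 + 1) * M := by ring
      _ ≤ R * M := Nat.mul_le_mul_right _ h1
      _ ≤ N := h⟩

theorem place_lt_of_lt {R M N : ℕ} (h : R * M ≤ N) {j j' : Fin R} (hj : j < j') (x x' : Fin M) :
    place h j x < place h j' x' := by
  rw [Fin.lt_def]
  have h1 : (j.1 + 1) * M ≤ j'.1 * M := Nat.mul_le_mul_right _ hj
  have h2 := x.2
  have h3 : (j.1 + 1) * M = j.1 * M + M := by ring
  show j.1 * M + x.1 < j'.1 * M + x'.1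
  omega

theorem place_lt_of_lt' {R M N : ℕ} (h : R * M ≤ N) (j : Fin R) {x x' : Fin M} (hx : x < x') :
    place h j x < place h j x' := by
  rw [Fin.lt_def]
  have h1 : x.1 < x'.1 := hx
  show j.1 * M + x.1 < j.1 * M + x'.1
  omega

/-- sorting by an injective key -/
theorem exists_sort {n : ℕ} {α : Type} [LinearOrder α] (key : Fin n → α)
    (hinj : Function.Injective key) :
    ∃ σ : Fin n ≃ Fin n, ∀ v w, σ v < σ w ↔ key v < key w := by
  set τ : Equiv.Perm (Fin n) := Tuple.sort key with hτ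
  have hmono : Monotone (key ∘ τ) := Tuple.monotone_sort key
  have hstrict : StrictMono (key ∘ τ) := hmono.strictMono_of_injective
    (hinj.comp τ.injective)
  refine ⟨τ.symm, fun v w => ?_⟩
  rw [← hstrict.lt_iff_lt]
  simp

theorem linear_of_pathwidth (k r : ℕ) (hr : 0 < r) : ∃ C : ℕ, ∀ (n : ℕ)
    (G : SimpleGraph (Fin n)), HasPathDecomposition G k →
      ∃ σ : Fin n ≃ Fin n, ∀ N : ℕ, C * n ≤ N → ∀ c : Fin N → Fin N → Fin r,
        ∃ (g : Fin n ↪o Fin N) (b : Fin r),
          ∀ v w : Fin n, G.Adj v w → σ v < σ w → c (g (σ v)) (g (σ w)) = b := by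
  classical
  obtain ⟨R, hR⟩ := ramsey_pairs (k + 1) r hr
  refine ⟨R * (R ^ (k + 1) * r + 1), fun n G hG => ?_⟩
  obtain ⟨π, a, ha⟩ := exists_slots G k hG
  -- the ordering: slots first, then times
  let key : Fin n → Fin (k + 1) ×ₗ Fin n := fun v => toLex (a (π.symm v).1, π.symm v)
  have hkey : Function.Injective key := by
    intro v w hvw
    have h1 := congrArg (fun p => (ofLex p).2) hvw
    exact π.symm.injective h1
  obtain ⟨σ, hσ⟩ := exists_sort key hkey
  refine ⟨σ, fun N hN c => ?_⟩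
  rcases Nat.eq_zero_or_pos n with rfl | hn
  · exact ⟨⟨⟨fun x => x.elim0, fun x => x.elim0⟩, fun {x} => x.elim0⟩, ⟨0, hr⟩,
      fun v => v.elim0⟩
  set M : ℕ := n * (R ^ (k + 1) * r) + 1 with hMdef
  have hRM : R * M ≤ N := by
    refine le_trans ?_ hN
    rw [hMdef, mul_assoc]
    apply Nat.mul_le_mul_left
    nlinarith
  obtain ⟨S, b, H, hHcard, hH⟩ := many_cliques (m := k + 1) (M := M) hR n (Nat.succ_pos k)
    (by omega) (fun i x j y => c (place hRM i x) (place hRM j y))
  obtain ⟨B, hBH, hBc, hB⟩ := chain H n a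
  obtain ⟨e₀, he₀, he₀B⟩ : ∃ e₀ ∈ H, e₀ ∉ B := by
    by_contra hcon
    push Not at hcon
    have h1 := Finset.card_le_card (show H ⊆ B from hcon)
    omega
  obtain ⟨e, -, heH, hstep⟩ := hB e₀ he₀ he₀B
  -- the host vertex of the vertex of time `t`
  let h : Fin n → Fin N := fun t => place hRM (S (a t.1)) (e (t.1 + 1) (a t.1))
  have hmono : ∀ s t : Fin n, (a s.1 < a t.1 ∨ (a s.1 = a t.1 ∧ s < t)) → h s < h t := by
    intro s t hst
    rcases hst with hst | ⟨hst, hlt⟩
    · exact place_lt_of_lt hRM (S.strictMono hst) _ _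
    · show place hRM (S (a s.1)) (e (s.1 + 1) (a s.1)) < place hRM (S (a t.1)) _
      rw [hst]
      apply place_lt_of_lt'
      refine lt_of_le_of_lt ?_ (hstep t.1 t.2).1
      exact chain_mono hstep (a t.1) (s.1 + 1) t.1 (Fin.lt_def.1 hlt) t.2.le
  -- colours of the edges
  have hcol : ∀ s t : Fin n, s < t → G.Adj (π s) (π t) →
      (a s.1 < a t.1 → c (h s) (h t) = b) ∧ (a t.1 < a s.1 → c (h t) (h s) = b) := by
    intro s t hst hadj
    have h1 : e (t.1 + 1) (a s.1) = e (s.1 + 1) (a s.1) := by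
      apply chain_const hstep (a s.1) (s.1 + 1) (t.1 + 1)
      · have := Fin.lt_def.1 hst
        omega
      · exact t.2
      · intro u hu hut
        exact ha s t hst hadj u (by omega) (by omega)
    have h2 : h s = place hRM (S (a s.1)) (e (t.1 + 1) (a s.1)) := by
      rw [h1]
    refine ⟨fun hlt => ?_, fun hlt => ?_⟩
    · rw [h2]
      exact hH _ (heH (t.1 + 1) t.2) _ _ hlt
    · rw [h2]
      exact hH _ (heH (t.1 + 1) t.2) _ _ hlt
  have hkeylt : ∀ v w : Fin n, σ v < σ w →
      (a (π.symm v).1 < a (π.symm w).1 ∨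
        (a (π.symm v).1 = a (π.symm w).1 ∧ π.symm v < π.symm w)) := by
    intro v w hvw
    have h1 := (hσ v w).1 hvw
    exact Prod.Lex.toLex_lt_toLex.1 h1
  let g' : Fin n → Fin N := fun p => h (π.symm (σ.symm p))
  have hg' : StrictMono g' := by
    intro p q hpq
    have h1 := hkeylt (σ.symm p) (σ.symm q) (by simpa using hpq)
    exact hmono _ _ h1
  refine ⟨OrderEmbedding.ofStrictMono g' hg', b, fun v w hadj hvw => ?_⟩
  have hgv : ∀ v, OrderEmbedding.ofStrictMono g' hg' (σ v) = h (π.symm v) := by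
    intro v
    show h (π.symm (σ.symm (σ v))) = _
    rw [Equiv.symm_apply_apply]
  rw [hgv, hgv]
  have hadj' : G.Adj (π (π.symm v)) (π (π.symm w)) := by simpa using hadj
  have hne : π.symm v ≠ π.symm w := fun hc => hadj.ne (π.symm.injective hc)
  rcases lt_or_gt_of_ne hne with hlt | hlt
  · -- `v` comes first in time
    have hane : a (π.symm w).1 ≠ a (π.symm v).1 :=
      ha _ _ hlt hadj' _ (Fin.lt_def.1 hlt) le_rfl
    rcases hkeylt v w hvw with h1 | ⟨h1, -⟩
    · exact (hcol _ _ hlt hadj').1 h1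
    · exact absurd h1.symm hane
  · have hane : a (π.symm v).1 ≠ a (π.symm w).1 :=
      ha _ _ hlt hadj'.symm _ (Fin.lt_def.1 hlt) le_rfl
    rcases hkeylt v w hvw with h1 | ⟨h1, -⟩
    · exact (hcol _ _ hlt hadj'.symm).2 h1
    · exact absurd h1 hane

end Pool.Agent.OrdPathwidth
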